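import Mathlib
import Pool.Agent.H28.Crpq

namespace Pool.Agent.Results.MP_968ae6_lc.NotSingle

open Pool.Agent.H28.Crpq

theorem result : ∃ Q : CQ (Fin 5) 3,
    (∃ L : List (CQ (Fin 5) 3), (∀ P ∈ L, P.Acyclic) ∧ Q.EquivU L) ∧
    ∀ P : CQ (Fin 5) 3, P.Acyclic → ¬ Q.EquivU [P] :=
  ⟨Q0, ⟨[Q1, Q2], by simp [acyc1, acyc2], equivU⟩, not_single⟩

end Pool.Agent.Results.MP_968ae6_lc.NotSingle
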